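import Mathlib

set_option linter.unusedSectionVars false

namespace Pool.Agent.H.MP_aa1cf3_an

open MeasureTheory Filter Topology Finset

/-- Block sizes. -/
structure Blk where
  N : ℕ → ℕ
  pos : ∀ b, 0 < N b

namespace Blk
variable (K : Blk)

def P (b : ℕ) : ℕ := ∑ j ∈ range b, K.N j

lemma P_succ (b : ℕ) : K.P (b + 1) = K.P b + K.N b := sum_range_succ _ _

lemma P_mono : StrictMono K.P := strictMono_nat_of_lt_succ fun b => by
  have := K.pos b
  rw [P_succ]; omega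

lemma ex (k : ℕ) : ∃ b, k < K.P (b + 1) := ⟨k, K.P_mono.le_apply⟩

def β (k : ℕ) : ℕ := Nat.find (K.ex k)

def I (b : ℕ) : Finset ℕ := Ico (K.P b) (K.P (b + 1))

lemma lt_β (k : ℕ) : k < K.P (K.β k + 1) := Nat.find_spec (K.ex k)

lemma β_le (k : ℕ) : K.P (K.β k) ≤ k := by
  rcases h : K.β k with _ | b
  · simp [P]
  · have := Nat.find_min (K.ex k) (m := b) (by unfold β at h; omega)
    omega

lemma mem_I {k b : ℕ} : k ∈ K.I b ↔ K.β k = b := by
  have h1 := K.lt_β k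
  have h2 := K.β_le k
  constructor
  · intro h
    have h := mem_Ico.1 h
    have a1 : K.β k < b + 1 := K.P_mono.lt_iff_lt.1 (by omega)
    have a2 : b < K.β k + 1 := K.P_mono.lt_iff_lt.1 (by omega)
    omega
  · rintro rfl
    exact mem_Ico.2 ⟨h2, h1⟩

lemma card_I (b : ℕ) : #(K.I b) = K.N b := by simp [I, P_succ]

lemma β_tendsto : Tendsto K.β atTop atTop := by
  refine tendsto_atTop_atTop.2 fun b => ⟨K.P b, fun k hk => ?_⟩
  have := K.lt_β k
  have a2 : b < K.β k + 1 := K.P_mono.lt_iff_lt.1 (by omega)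
  omega

lemma sum_blocks (x : ℕ → ℝ) (b : ℕ) :
    ∑ k ∈ range (K.P b), x k = ∑ j ∈ range b, ∑ k ∈ K.I j, x k := by
  induction b with
  | zero => simp [P]
  | succ b ih =>
    rw [sum_range_succ, ← ih, I, sum_range_add_sum_Ico _ (K.P_mono.monotone (Nat.le_succ b))]

lemma block_conv {x z : ℕ → ℝ} {l : ℝ}
    (h1 : Tendsto (fun b => ∑ j ∈ range b, ∑ k ∈ K.I j, x k) atTop (𝓝 l))
    (hz : Tendsto z atTop (𝓝 0))
    (h2 : ∀ b n, n ≤ K.P (b + 1) → |∑ k ∈ Ico (K.P b) n, x k| ≤ z b) :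
    Tendsto (fun n => ∑ k ∈ range n, x k) atTop (𝓝 l) := by
  have a1 := h1.comp K.β_tendsto
  have a2 : Tendsto (fun n => ∑ k ∈ Ico (K.P (K.β n)) n, x k) atTop (𝓝 0) :=
    squeeze_zero_norm (fun n => h2 _ n (K.lt_β n).le) (hz.comp K.β_tendsto)
  have a3 := a1.add a2
  rw [add_zero] at a3
  refine a3.congr fun n => ?_
  simp only [Function.comp]
  rw [← sum_blocks, sum_range_add_sum_Ico _ (K.β_le n)]

lemma summable_blocks {x : ℕ → ℝ} (h0 : ∀ k, 0 ≤ x k) (h : Summable x) :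
    Summable fun b => ∑ k ∈ K.I b, x k := by
  refine summable_of_sum_range_le (c := ∑' k, x k) (fun b => sum_nonneg fun _ _ => h0 _)
    fun n => ?_
  rw [← sum_blocks]
  exact h.sum_le_tsum _ fun _ _ => h0 _

lemma summable_of_blocks {x : ℕ → ℝ} (h0 : ∀ k, 0 ≤ x k)
    (h : Summable fun b => ∑ k ∈ K.I b, x k) : Summable x := by
  refine summable_of_sum_range_le (c := ∑' b, ∑ k ∈ K.I b, x k) h0 fun n => ?_
  calc ∑ k ∈ range n, x k ≤ ∑ k ∈ range (K.P n), x k :=
        sum_le_sum_of_subset_of_nonneg (range_mono K.P_mono.le_apply) fun _ _ _ => h0 _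
    _ ≤ _ := by
        rw [sum_blocks]
        exact h.sum_le_tsum _ fun _ _ => sum_nonneg fun _ _ => h0 _

noncomputable def al (b : ℕ) : ℝ := (√(K.N b))⁻¹

lemma al_pos (b : ℕ) : 0 < K.al b := by
  have : (0 : ℝ) < K.N b := by exact_mod_cast K.pos b
  unfold al; positivity

lemma al_sq (b : ℕ) : K.al b ^ 2 * K.N b = 1 := by
  have : (0 : ℝ) < K.N b := by exact_mod_cast K.pos b
  unfold al
  rw [inv_pow, Real.sq_sqrt this.le]
  field_simp

lemma cs (a : ℕ → ℝ) (b : ℕ) {s : Finset ℕ} (hs : s ⊆ K.I b) :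
    (K.al b * ∑ k ∈ s, a k) ^ 2 ≤ ∑ k ∈ K.I b, a k ^ 2 := by
  have h1 := sq_sum_le_card_mul_sum_sq (s := s) (f := a)
  have h2 : (#s : ℝ) ≤ K.N b := by
    have := card_le_card hs
    rw [card_I] at this
    exact_mod_cast this
  have h3 : ∑ k ∈ s, a k ^ 2 ≤ ∑ k ∈ K.I b, a k ^ 2 :=
    sum_le_sum_of_subset_of_nonneg hs fun _ _ _ => sq_nonneg _
  have h4 : 0 ≤ ∑ k ∈ s, a k ^ 2 := sum_nonneg fun _ _ => sq_nonneg _
  calc (K.al b * ∑ k ∈ s, a k) ^ 2 = K.al b ^ 2 * (∑ k ∈ s, a k) ^ 2 := by ring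
    _ ≤ K.al b ^ 2 * (K.N b * ∑ k ∈ K.I b, a k ^ 2) := by
        gcongr
        exact h1.trans (by gcongr)
    _ = _ := by rw [← mul_assoc, al_sq, one_mul]

end Blk

section V
variable {Ω : Type} [MeasurableSpace Ω] (μ : Measure Ω)

/-- Square integrable functions. -/
def V : Submodule ℝ (Ω → ℝ) where
  carrier := {f | MemLp f 2 μ}
  add_mem' hf hg := hf.add hg
  zero_mem' := MemLp.zero
  smul_mem' c _ hf := hf.const_smul c

noncomputable def B : V μ →ₗ[ℝ] V μ →ₗ[ℝ] ℝ :=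
  LinearMap.mk₂ ℝ (fun f g => ∫ ω, f.1 ω * g.1 ω ∂μ)
    (fun f f' g => by
      simp only [Submodule.coe_add, Pi.add_apply, add_mul]
      exact integral_add (MemLp.integrable_mul f.2 g.2) (MemLp.integrable_mul f'.2 g.2))
    (fun c f g => by
      simp only [Submodule.coe_smul, Pi.smul_apply, smul_eq_mul, mul_assoc]
      exact integral_const_mul _ _)
    (fun f g g' => by
      simp only [Submodule.coe_add, Pi.add_apply, mul_add]
      exact integral_add (MemLp.integrable_mul f.2 g.2) (MemLp.integrable_mul f.2 g'.2))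
    (fun c f g => by
      simp only [Submodule.coe_smul, Pi.smul_apply, smul_eq_mul, mul_left_comm _ c]
      exact integral_const_mul _ _)

variable {μ}

lemma B_apply (f g : V μ) : B μ f g = ∫ ω, f.1 ω * g.1 ω ∂μ := rfl

lemma B_symm (f g : V μ) : B μ f g = B μ g f := by simp only [B_apply, mul_comm]

def ON {ι : Type} [DecidableEq ι] (e : ι → V μ) : Prop :=
  ∀ i j, B μ (e i) (e j) = if i = j then 1 else 0

def Conv (f : ℕ → V μ) : Prop :=
  ∀ a : ℕ → ℝ, Summable (fun k => a k ^ 2) →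
    ∀ᵐ ω ∂μ, ∃ l, Tendsto (fun n => ∑ k ∈ range n, a k * (f k).1 ω) atTop (𝓝 l)

lemma ON.sq_sum {ι : Type} [DecidableEq ι] {e : ι → V μ} (h : ON e) (a : ι → ℝ) (s : Finset ι) :
    B μ (∑ i ∈ s, a i • e i) (∑ i ∈ s, a i • e i) = ∑ i ∈ s, a i ^ 2 := by
  simp only [map_sum, map_smul, LinearMap.sum_apply, LinearMap.smul_apply, smul_eq_mul, h _ _]
  refine sum_congr rfl fun i hi => ?_
  simp [hi, sq]

lemma Conv.sub {f : ℕ → V μ} (h : Conv f) {κ : ℕ → ℕ} (hκ : StrictMono κ) :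
    Conv fun k => f (κ k) := by
  intro a ha
  have h1 : Summable fun j => (Function.extend κ a 0 j) ^ 2 := by
    rw [← hκ.injective.summable_iff]
    · simpa [Function.comp_def, hκ.injective.extend_apply] using ha
    · intro j hj
      rw [Function.extend_apply' _ _ _ (by simpa using hj)]
      simp
  filter_upwards [h _ h1] with ω ⟨l, hl⟩
  refine ⟨l, (hl.comp hκ.tendsto_atTop).congr fun n => ?_⟩
  simp only [Function.comp]
  symm
  refine sum_of_injOn κ hκ.injective.injOn (fun k hk => ?_) (fun j hj hj' => ?_) fun k _ => ?_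
  · exact mem_range.2 (hκ (mem_range.1 hk))
  · rw [Function.extend_apply']
    · simp
    · rintro ⟨k, rfl⟩
      exact hj' ⟨k, mem_coe.2 (mem_range.2 (hκ.lt_iff_lt.1 (mem_range.1 hj))), rfl⟩
  · rw [hκ.injective.extend_apply]

noncomputable def il (f f' : ℕ → V μ) (b : ℕ) : V μ := if b % 2 = 0 then f (b / 2) else f' (b / 2)

lemma il_even (f f' : ℕ → V μ) (j : ℕ) : il f f' (2 * j) = f j := by simp [il]

lemma il_odd (f f' : ℕ → V μ) (j : ℕ) : il f f' (2 * j + 1) = f' j := by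
  have : (2 * j + 1) / 2 = j := by omega
  simp [il, this]

lemma Conv.il {f f' : ℕ → V μ} (h : Conv f) (h' : Conv f') : Conv (il f f') := by
  intro a ha
  have i1 : Function.Injective fun j : ℕ => 2 * j := fun i j h => by simpa using h
  have i2 : Function.Injective fun j : ℕ => 2 * j + 1 := fun i j h => by simpa using h
  filter_upwards [h (fun j => a (2 * j)) (ha.comp_injective i1),
    h' (fun j => a (2 * j + 1)) (ha.comp_injective i2)] with ω ⟨l, hl⟩ ⟨l', hl'⟩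
  have t1 : Tendsto (fun n : ℕ => (n + 1) / 2) atTop atTop :=
    tendsto_atTop_atTop.2 fun b => ⟨2 * b, fun n hn => by omega⟩
  have t2 : Tendsto (fun n : ℕ => n / 2) atTop atTop :=
    tendsto_atTop_atTop.2 fun b => ⟨2 * b, fun n hn => by omega⟩
  refine ⟨l + l', ((hl.comp t1).add (hl'.comp t2)).congr fun n => ?_⟩
  simp only [Function.comp]
  induction n with
  | zero => simp
  | succ n ih =>
    rw [sum_range_succ, ← ih]
    obtain ⟨j, rfl | rfl⟩ := Nat.even_or_odd' n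
    · have e1 : (2 * j + 1 + 1) / 2 = j + 1 := by omega
      have e2 : (2 * j + 1) / 2 = j := by omega
      have e3 : (2 * j) / 2 = j := by omega
      rw [e1, e2, e3, sum_range_succ, il_even]; ring
    · have e1 : (2 * j + 1 + 1 + 1) / 2 = j + 1 := by omega
      have e2 : (2 * j + 1 + 1) / 2 = j + 1 := by omega
      have e3 : (2 * j + 1) / 2 = j := by omega
      rw [e1, e2, e3, sum_range_succ (fun k => a (2 * k + 1) * (f' k).1 ω), il_odd]; ring

lemma ON.il {f f' : ℕ → V μ} (h : ON f) (h' : ON f') (hc : ∀ i j, B μ (f i) (f' j) = 0) :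
    ON (il f f') := by
  intro b c
  obtain ⟨i, rfl | rfl⟩ := Nat.even_or_odd' b <;> obtain ⟨j, rfl | rfl⟩ := Nat.even_or_odd' c
  · rw [il_even, il_even, h]; simp
  · rw [il_even, il_odd, hc, if_neg (by omega)]
  · rw [il_even, il_odd, B_symm, hc, if_neg (by omega)]
  · rw [il_odd, il_odd, h']; simp

lemma ae_small {g : ℕ → V μ} (hg : ∀ b, B μ (g b) (g b) = 1) {c : ℕ → ℝ}
    (hc : Summable fun b => c b ^ 2) :
    ∀ᵐ ω ∂μ, Tendsto (fun b => c b * (g b).1 ω) atTop (𝓝 0) := by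
  have hi : ∀ b, Integrable (fun ω => c b ^ 2 * ((g b).1 ω * (g b).1 ω)) μ := fun b =>
    (MemLp.integrable_mul (g b).2 (g b).2).const_mul _
  have hs : Summable fun b => ∫ ω, ‖c b ^ 2 * ((g b).1 ω * (g b).1 ω)‖ ∂μ := by
    refine hc.congr fun b => ?_
    have : ∀ ω, ‖c b ^ 2 * ((g b).1 ω * (g b).1 ω)‖ = c b ^ 2 * ((g b).1 ω * (g b).1 ω) :=
      fun ω => Real.norm_of_nonneg (mul_nonneg (sq_nonneg _) (mul_self_nonneg _))
    simp only [this]
    rw [integral_const_mul, ← B_apply, hg, mul_one]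
  have h1 := hasSum_integral_of_summable_integral_norm hi hs
  have h2 : ∫⁻ ω, ∑' b, ‖c b ^ 2 * ((g b).1 ω * (g b).1 ω)‖ₑ ∂μ ≠ ⊤ := by
    rw [lintegral_tsum fun b => (hi b).1.enorm]
    simp only [← ofReal_integral_norm_eq_lintegral_enorm (hi _)]
    rw [← ENNReal.ofReal_tsum_of_nonneg (fun b => integral_nonneg fun _ => norm_nonneg _) hs]
    exact ENNReal.ofReal_ne_top
  have h3 := ae_lt_top' (AEMeasurable.tsum fun b => (hi b).1.enorm) h2
  filter_upwards [h3] with ω hω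
  have h4 : Summable fun b => ‖c b ^ 2 * ((g b).1 ω * (g b).1 ω)‖ :=
    tsum_enorm_ne_top_iff_summable_norm.1 hω.ne
  have h5 := (h4.of_norm).tendsto_atTop_zero
  have h6 : Tendsto (fun b => √(c b ^ 2 * ((g b).1 ω * (g b).1 ω))) atTop (𝓝 0) := by
    simpa using h5.sqrt
  refine squeeze_zero_norm (fun b => le_of_eq ?_) h6
  rw [show c b ^ 2 * ((g b).1 ω * (g b).1 ω) = (c b * (g b).1 ω) ^ 2 by ring, Real.sqrt_sq_eq_abs,
    Real.norm_eq_abs]

variable (K : Blk) (e g : ℕ → V μ)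

noncomputable def uu (b : ℕ) : V μ := K.al b • ∑ k ∈ K.I b, e k

noncomputable def vv (k : ℕ) : V μ := e k - K.al (K.β k) • uu K e (K.β k)

noncomputable def sw (k : ℕ) : V μ := vv K e k + K.al (K.β k) • g (K.β k)

variable {K e g}

lemma B_e_uu (he : ON e) (k b : ℕ) :
    B μ (e k) (uu K e b) = if K.β k = b then K.al b else 0 := by
  simp only [uu, map_smul, map_sum, he _ _, smul_eq_mul, sum_ite_eq, K.mem_I]
  split_ifs <;> simp

lemma ON.uu (he : ON e) : ON (uu K e) := by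
  intro b c
  conv_lhs => rw [Pool.Agent.H.MP_aa1cf3_an.uu]
  simp only [map_smul, map_sum, LinearMap.smul_apply, LinearMap.sum_apply, B_e_uu he, smul_eq_mul]
  rw [sum_congr rfl fun k hk => by rw [K.mem_I.1 hk]]
  split_ifs with h
  · subst h
    rw [sum_const, K.card_I, nsmul_eq_mul, ← K.al_sq b]; ring
  · simp

lemma B_vv_uu (he : ON e) (k b : ℕ) : B μ (vv K e k) (uu K e b) = 0 := by
  simp only [vv, map_sub, map_smul, LinearMap.sub_apply, LinearMap.smul_apply, B_e_uu he,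
    he.uu _ _, smul_eq_mul]
  split_ifs with h
  · rw [h]; ring
  · ring

lemma B_vv_vv (he : ON e) (k j : ℕ) : B μ (vv K e k) (vv K e j)
    = (if k = j then 1 else 0) - if K.β k = K.β j then K.al (K.β k) ^ 2 else 0 := by
  conv_lhs => rw [vv.eq_def K e j]
  rw [map_sub, map_smul, B_vv_uu he, smul_zero, sub_zero, vv, map_sub, map_smul,
    LinearMap.sub_apply, LinearMap.smul_apply, he, B_symm, B_e_uu he, smul_eq_mul]
  congr 1
  by_cases h : K.β k = K.β j
  · rw [if_pos h, if_pos h.symm]; ring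
  · rw [if_neg h, if_neg (Ne.symm h)]; ring

lemma ON.sw (he : ON e) (hg : ON g) (hv : ∀ k b, B μ (vv K e k) (g b) = 0) : ON (sw K e g) := by
  intro k j
  have hv' : ∀ k b, B μ (g b) (vv K e k) = 0 := fun k b => by rw [B_symm, hv]
  simp only [Pool.Agent.H.MP_aa1cf3_an.sw, map_add, map_smul, LinearMap.add_apply,
    LinearMap.smul_apply, hv, hv', B_vv_vv he, hg _ _, smul_eq_mul]
  by_cases h : K.β k = K.β j
  · simp only [← h, if_true]; ring
  · simp only [if_neg h]; ring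

lemma ker_uu (l : V μ →ₗ[ℝ] ℝ) (h : ∀ k, l (e k) = 0) (b : ℕ) : l (uu K e b) = 0 := by
  simp [uu, map_sum, h]

lemma ker_vv (l : V μ →ₗ[ℝ] ℝ) (h : ∀ k, l (e k) = 0) (k : ℕ) : l (vv K e k) = 0 := by
  simp [vv, h, ker_uu l h]

lemma ker_g (l : V μ →ₗ[ℝ] ℝ) (h : ∀ k, l (sw K e g k) = 0) (b : ℕ) : l (g b) = 0 := by
  have h1 : ∑ k ∈ K.I b, l (sw K e g k)
      = ∑ k ∈ K.I b, (l (e k) - K.al b * l (uu K e b) + K.al b * l (g b)) :=
    sum_congr rfl fun k hk => by simp [sw, vv, K.mem_I.1 hk]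
  have h2 : l (uu K e b) = K.al b * ∑ k ∈ K.I b, l (e k) := by simp [uu, map_sum]
  rw [sum_add_distrib, sum_sub_distrib, sum_const, sum_const, K.card_I, h2, nsmul_eq_mul,
    nsmul_eq_mul] at h1
  simp only [h, sum_const_zero] at h1
  have h3 := K.al_sq b
  have h4 : (K.N b : ℝ) * (K.al b * l (g b)) = 0 := by
    linear_combination -h1 + (∑ k ∈ K.I b, l (e k)) * h3
  have h5 : (K.N b : ℝ) ≠ 0 := by exact_mod_cast (K.pos b).ne'
  simpa [h5, (K.al_pos b).ne'] using h4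

lemma ker_e (l : V μ →ₗ[ℝ] ℝ) (h : ∀ k, l (sw K e g k) = 0) (hu : ∀ b, l (uu K e b) = 0)
    (k : ℕ) : l (e k) = 0 := by
  have := h k
  simpa [sw, vv, hu, ker_g l h] using this

lemma Conv.uu (h : Conv e) : Conv (uu K e) := by
  intro d hd
  have h1 : Summable fun k => (d (K.β k) * K.al (K.β k)) ^ 2 := by
    refine K.summable_of_blocks (fun _ => sq_nonneg _) (hd.congr fun b => ?_)
    rw [sum_congr rfl fun k hk => by rw [K.mem_I.1 hk], sum_const, K.card_I, nsmul_eq_mul]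
    linear_combination (-d b ^ 2) * K.al_sq b
  filter_upwards [h _ h1] with ω ⟨l, hl⟩
  refine ⟨l, (hl.comp K.P_mono.tendsto_atTop).congr fun n => ?_⟩
  simp only [Function.comp]
  rw [K.sum_blocks]
  refine sum_congr rfl fun b _ => ?_
  rw [sum_congr rfl fun k hk => by rw [K.mem_I.1 hk]]
  simp [Pool.Agent.H.MP_aa1cf3_an.uu, mul_sum, mul_assoc]

lemma Conv.sw (he : ON e) (hg : ON g) (h : Conv e) (h' : Conv g) : Conv (sw K e g) := by
  intro a ha
  have hs := K.summable_blocks (fun _ => sq_nonneg _) ha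
  have hd : Summable fun b => (K.al b * ∑ k ∈ K.I b, a k) ^ 2 :=
    hs.of_nonneg_of_le (fun _ => sq_nonneg _) fun b => K.cs a b Subset.rfl
  have hc : Summable fun b => (√(∑ k ∈ K.I b, a k ^ 2)) ^ 2 :=
    hs.congr fun b => (Real.sq_sqrt (sum_nonneg fun _ _ => sq_nonneg _)).symm
  filter_upwards [h a ha, h' _ hd, h.uu (K := K) _ hd,
    ae_small (g := g) (fun b => by rw [hg]; simp) hc,
    ae_small (g := Pool.Agent.H.MP_aa1cf3_an.uu K e) (fun b => by rw [he.uu]; simp) hc]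
    with ω ⟨l1, h1⟩ ⟨l2, h2⟩ ⟨l3, h3⟩ h4 h5
  set w : ℕ → ℝ := fun b => (g b).1 ω - (Pool.Agent.H.MP_aa1cf3_an.uu K e b).1 ω with hw
  have h6 : ∀ b (s : Finset ℕ), s ⊆ K.I b →
      ∑ k ∈ s, a k * K.al (K.β k) * w (K.β k) = (K.al b * ∑ k ∈ s, a k) * w b := by
    intro b s hs
    rw [sum_congr rfl fun k hk => by rw [K.mem_I.1 (hs hk)], ← sum_mul, ← sum_mul]; ring
  have h7 : Tendsto (fun n => ∑ k ∈ range n, a k * K.al (K.β k) * w (K.β k)) atTop
      (𝓝 (l2 - l3)) := by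
    refine K.block_conv (z := fun b => |√(∑ k ∈ K.I b, a k ^ 2) * w b|) ?_ ?_ fun b n hn => ?_
    · refine (h2.sub h3).congr fun n => ?_
      rw [← sum_sub_distrib]
      refine sum_congr rfl fun b _ => ?_
      rw [h6 b _ Subset.rfl, hw]; ring
    · have := (h4.sub h5).abs
      simp only [sub_zero, abs_zero] at this
      refine this.congr fun b => ?_
      rw [hw]; ring_nf
    · have hs : Ico (K.P b) n ⊆ K.I b := Ico_subset_Ico_right hn
      rw [h6 b _ hs, abs_mul, abs_mul (√_)]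
      refine mul_le_mul_of_nonneg_right ?_ (abs_nonneg _)
      rw [abs_of_nonneg (Real.sqrt_nonneg _)]
      exact Real.abs_le_sqrt (K.cs a b hs)
  refine ⟨l1 + (l2 - l3), (h1.add h7).congr fun n => ?_⟩
  rw [← sum_add_distrib]
  refine sum_congr rfl fun k _ => ?_
  simp [Pool.Agent.H.MP_aa1cf3_an.sw, vv, hw]; ring

lemma uu_bound (he : ∀ k ω, |(e k).1 ω| ≤ 1) (b : ℕ) (ω : Ω) :
    |(uu K e b).1 ω| ≤ √(K.N b) := by
  have h0 : (0 : ℝ) < K.N b := by exact_mod_cast K.pos b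
  have h1 : |∑ k ∈ K.I b, (e k).1 ω| ≤ K.N b := by
    refine (abs_sum_le_sum_abs _ _).trans ?_
    have := sum_le_card_nsmul (K.I b) _ _ fun k _ => he k ω
    simpa [K.card_I] using this
  have h2 : (uu K e b).1 ω = K.al b * ∑ k ∈ K.I b, (e k).1 ω := by simp [uu]
  rw [h2, abs_mul, abs_of_pos (K.al_pos b), Blk.al, inv_mul_le_iff₀ (by positivity),
    Real.mul_self_sqrt h0.le]
  exact h1

lemma sw_bound (he : ∀ k ω, |(e k).1 ω| ≤ 1) (hg : ∀ b ω, |(g b).1 ω| ≤ √(K.N b)) (k : ℕ)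
    (ω : Ω) : |(sw K e g k).1 ω| ≤ 3 := by
  have h0 : (0 : ℝ) < K.N (K.β k) := by exact_mod_cast K.pos _
  have h1 : ∀ x : ℝ, |x| ≤ √(K.N (K.β k)) → |K.al (K.β k) * x| ≤ 1 := by
    intro x hx
    rw [abs_mul, abs_of_pos (K.al_pos _), Blk.al, inv_mul_le_iff₀ (by positivity), mul_one]
    exact hx
  have h2 : (sw K e g k).1 ω = (e k).1 ω - K.al (K.β k) * (uu K e (K.β k)).1 ω
      + K.al (K.β k) * (g (K.β k)).1 ω := by simp [sw, vv]
  have a1 := abs_le.1 (he k ω)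
  have a2 := abs_le.1 (h1 _ (uu_bound he _ ω))
  have a3 := abs_le.1 (h1 _ (hg _ ω))
  rw [h2, abs_le]
  constructor <;> linarith

end V

end Pool.Agent.H.MP_aa1cf3_an
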