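import Pool.Agent.H.MP_aa1cf3_an.A

set_option linter.unusedSectionVars false
set_option linter.dupNamespace false

namespace Pool.Agent.H.MP_aa1cf3_an

open MeasureTheory Filter Topology Finset
open scoped Classical ENNReal

abbrev Om := ℕ → Bool

def Cyl (n : ℕ) (b : Om) : Set Om := {ω | ∀ i < n, ω i = b i}

lemma Cyl_meas (n : ℕ) (b : Om) : MeasurableSet (Cyl n b) := by
  unfold Cyl
  measurability

lemma Cyl_pi : IsPiSystem {s | ∃ n b, s = Cyl n b} := by
  rintro _ ⟨n, b, rfl⟩ _ ⟨m, c, rfl⟩ ⟨ω, h1, h2⟩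
  refine ⟨max n m, ω, ?_⟩
  ext x
  simp only [Cyl, Set.mem_inter_iff, Set.mem_ofPred_eq, lt_max_iff]
  constructor
  · rintro ⟨a1, a2⟩ i (hi | hi)
    · rw [a1 i hi, h1 i hi]
    · rw [a2 i hi, h2 i hi]
  · intro h
    exact ⟨fun i hi => by rw [h i (Or.inl hi), h1 i hi], fun i hi => by
      rw [h i (Or.inr hi), h2 i hi]⟩

def val : ℕ → Om → ℕ
  | 0, _ => 0
  | n + 1, ω => 2 * val n ω + if ω n then 1 else 0

lemma val_lt (n : ℕ) (ω : Om) : val n ω < 2 ^ n := by
  induction n with
  | zero => simp [val]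
  | succ n ih => simp only [val, pow_succ]; split_ifs <;> omega

lemma val_eq_iff (n : ℕ) (ω b : Om) : val n ω = val n b ↔ ω ∈ Cyl n b := by
  induction n with
  | zero => simp [val, Cyl]
  | succ n ih =>
    have : ω ∈ Cyl (n + 1) b ↔ ω ∈ Cyl n b ∧ ω n = b n := by
      simp only [Cyl, Set.mem_ofPred_eq, Nat.lt_succ_iff_lt_or_eq]
      exact ⟨fun h => ⟨fun i hi => h i (Or.inl hi), h n (Or.inr rfl)⟩,
        fun h i hi => hi.elim (h.1 i) fun e => e ▸ h.2⟩
    rw [this, ← ih]
    simp only [val]
    cases ω n <;> cases b n <;> simp <;> omega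

lemma val_surj (n k : ℕ) (hk : k < 2 ^ n) : ∃ b, val n b = k := by
  induction n generalizing k with
  | zero => exact ⟨fun _ => true, by simp [val]; omega⟩
  | succ n ih =>
    obtain ⟨b, hb⟩ := ih (k / 2) (by omega)
    refine ⟨Function.update b n (decide (k % 2 = 1)), ?_⟩
    have : val n (Function.update b n (decide (k % 2 = 1))) = val n b :=
      (val_eq_iff _ _ _).2 fun i hi => by rw [Function.update_of_ne (by omega)]
    simp only [val, this, hb, Function.update_self, decide_eq_true_eq]
    split_ifs <;> omega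

lemma val_meas (n : ℕ) : Measurable (val n) := by
  induction n with
  | zero => exact measurable_const
  | succ n ih =>
    exact (measurable_const.mul ih).add
      (Measurable.ite (by measurability) measurable_const measurable_const)

lemma Cyl_gen : (inferInstance : MeasurableSpace Om)
    = MeasurableSpace.generateFrom {s | ∃ n b, s = Cyl n b} := by
  refine le_antisymm ?_ (MeasurableSpace.generateFrom_le ?_)
  · refine iSup_le fun i => ?_
    rintro _ ⟨t, -, rfl⟩
    have : (fun ω : Om => ω i) ⁻¹' t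
        = ⋃ k : ℕ, ⋃ (_ : ∃ b, val (i + 1) b = k ∧ b i ∈ t), {ω | val (i + 1) ω = k} := by
      ext ω
      simp only [Set.mem_preimage, Set.mem_iUnion, Set.mem_ofPred_eq]
      constructor
      · intro h
        exact ⟨_, ⟨ω, rfl, h⟩, rfl⟩
      · rintro ⟨_, ⟨b, rfl, hb⟩, h⟩
        rw [(val_eq_iff _ _ _).1 h i (Nat.lt_succ_self i)]
        exact hb
    rw [this]
    refine MeasurableSet.iUnion fun k => MeasurableSet.iUnion ?_
    rintro ⟨b, rfl, -⟩
    exact MeasurableSpace.measurableSet_generateFrom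
      ⟨i + 1, b, by ext ω; exact val_eq_iff _ _ _⟩
  · rintro _ ⟨n, b, rfl⟩
    exact Cyl_meas n b

noncomputable def flip (T : Set ℕ) (ω : Om) : Om := fun i => if i ∈ T then !ω i else ω i

lemma flip_flip (T : Set ℕ) : Function.Involutive (flip T) := by
  intro ω
  ext i
  simp only [flip]
  split_ifs <;> simp

lemma flip_meas (T : Set ℕ) : Measurable (flip T) := by
  refine measurable_pi_lambda _ fun i => ?_
  simp only [flip]
  split_ifs
  · exact (measurable_of_countable not).comp (measurable_pi_apply i)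
  · exact measurable_pi_apply i

/-- Fair coin tossing measure. -/
structure Fair (μ : Measure Om) : Prop where
  prob : IsProbabilityMeasure μ
  cyl : ∀ n b, μ (Cyl n b) = 2⁻¹ ^ n

variable {μ : Measure Om}

lemma Fair.flip_mp (h : Fair μ) (T : Set ℕ) : MeasurePreserving (flip T) μ μ := by
  have := h.prob
  refine ⟨flip_meas T, ?_⟩
  have := Measure.isProbabilityMeasure_map (μ := μ) (flip_meas T).aemeasurable
  refine ext_of_generate_finite _ Cyl_gen Cyl_pi ?_ (by simp)
  rintro _ ⟨n, b, rfl⟩
  rw [Measure.map_apply (flip_meas T) (Cyl_meas n b), h.cyl, ← h.cyl n (flip T b)]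
  congr 1
  ext ω
  simp only [Cyl, Set.mem_preimage, Set.mem_ofPred_eq, flip]
  refine forall₂_congr fun i _ => ?_
  split_ifs
  · cases ω i <;> cases b i <;> simp
  · rfl

lemma Fair.int_zero (h : Fair μ) (T : Set ℕ) {F : Om → ℝ} (hF : ∀ ω, F (flip T ω) = -F ω) :
    ∫ ω, F ω ∂μ = 0 := by
  have h1 := (h.flip_mp T).integral_comp
    (MeasurableEquiv.ofInvolutive _ (flip_flip T) (flip_meas T)).measurableEmbedding F
  simp only [hF, integral_neg] at h1
  linarith

lemma val_flip {T : Set ℕ} {n : ℕ} (hT : ∀ i < n, i ∉ T) (ω : Om) : val n (flip T ω) = val n ω :=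
  (val_eq_iff _ _ _).2 fun i hi => by simp [flip, hT i hi]

noncomputable def sf (n : ℕ) (ω : Om) : ℝ := if n = 0 then 1 else if ω (n - 1) then 1 else -1

lemma sf_meas (n : ℕ) : Measurable (sf n) := by
  unfold sf
  split_ifs
  · exact measurable_const
  · exact Measurable.ite (by measurability) measurable_const measurable_const

lemma sf_abs (n : ℕ) (ω : Om) : |sf n ω| = 1 := by
  unfold sf; split_ifs <;> simp

lemma sf_sq (n : ℕ) (ω : Om) : sf n ω * sf n ω = 1 := by
  unfold sf; split_ifs <;> simp

lemma sf_flip (T : Set ℕ) (n : ℕ) (ω : Om) :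
    sf (n + 1) (flip T ω) = if n ∈ T then -sf (n + 1) ω else sf (n + 1) ω := by
  simp only [sf, flip, Nat.add_sub_cancel, Nat.succ_ne_zero, if_false]
  by_cases h : n ∈ T
  · simp only [h, if_true]
    cases ω n <;> simp
  · simp only [h, if_false]

lemma sf_flip' {m n : ℕ} (h : n ≤ m) (ω : Om) : sf n (flip {m} ω) = sf n ω := by
  rcases n with _ | n
  · simp [sf]
  · rw [sf_flip, if_neg (by simp; omega)]

def K1 : Blk := ⟨fun n => 2 ^ (n - 1), fun _ => by positivity⟩

noncomputable def hf (j : ℕ) (ω : Om) : ℝ :=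
  √(K1.N (K1.β j)) * sf (K1.β j) ω * if val (K1.β j - 1) ω = j - K1.P (K1.β j) then 1 else 0

lemma hf_meas (j : ℕ) : Measurable (hf j) :=
  (measurable_const.mul (sf_meas _)).mul
    (Measurable.ite (val_meas _ (measurableSet_singleton _)) measurable_const measurable_const)

lemma hf_abs (j : ℕ) (ω : Om) : |hf j ω| ≤ √(K1.N (K1.β j)) := by
  unfold hf
  rw [abs_mul, abs_mul, sf_abs, abs_of_nonneg (Real.sqrt_nonneg _)]
  split_ifs <;> simp

variable (h : Fair μ)

def mk (f : Om → ℝ) (hm : Measurable f) (C : ℝ) (hC : ∀ ω, |f ω| ≤ C) : V μ :=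
  ⟨f, by
    have := h.prob
    exact MemLp.of_bound hm.aestronglyMeasurable C (Eventually.of_forall hC)⟩

noncomputable def S (n : ℕ) : V μ := mk h (sf n) (sf_meas n) 1 fun ω => (sf_abs n ω).le

noncomputable def H (j : ℕ) : V μ := mk h (hf j) (hf_meas j) _ (hf_abs j)

lemma idx_mem (n : ℕ) (ω : Om) : K1.P n + val (n - 1) ω ∈ K1.I n := by
  have := val_lt (n - 1) ω
  simp only [Blk.I, Blk.P_succ, mem_Ico]
  exact ⟨by omega, by simpa [K1] using this⟩

lemma hf_sum (a : ℕ → ℝ) (n : ℕ) (ω : Om) {t : Finset ℕ} (ht : t ⊆ K1.I n) :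
    ∑ j ∈ t, a j * hf j ω = if K1.P n + val (n - 1) ω ∈ t then
      a (K1.P n + val (n - 1) ω) * (√(K1.N n) * sf n ω) else 0 := by
  rw [← sum_ite_eq t (K1.P n + val (n - 1) ω) fun j => a j * (√(K1.N n) * sf n ω)]
  refine sum_congr rfl fun j hj => ?_
  have h1 := K1.mem_I.1 (ht hj)
  have h2 := (mem_Ico.1 (ht hj)).1
  unfold hf
  rw [h1]
  by_cases h3 : K1.P n + val (n - 1) ω = j
  · rw [if_pos h3, if_pos (by omega), mul_one]
  · rw [if_neg h3, if_neg (by omega)]; simp

lemma ON_H : ON (H h) := by
  have := h.prob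
  have key : ∀ i j, K1.β i < K1.β j → B μ (H h i) (H h j) = 0 := by
    intro i j hij
    obtain ⟨m, hm⟩ : ∃ m, K1.β j = m + 1 := ⟨K1.β j - 1, by omega⟩
    refine h.int_zero {m} fun ω => ?_
    simp only [H, mk, hf, hm, Nat.add_sub_cancel]
    rw [sf_flip, sf_flip' (by omega), val_flip (by simp; omega), val_flip (by simp; omega)]
    simp only [Set.mem_singleton_iff, if_true]
    ring
  intro i j
  rcases lt_trichotomy (K1.β i) (K1.β j) with h1 | h1 | h1
  · rw [key i j h1, if_neg (by rintro rfl; omega)]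
  · have hN : (0 : ℝ) < K1.N (K1.β j) := by exact_mod_cast K1.pos _
    have e : ∀ ω, hf i ω * hf j ω = K1.N (K1.β j) * if i = j ∧
        val (K1.β j - 1) ω = j - K1.P (K1.β j) then 1 else 0 := by
      intro ω
      have a1 := K1.β_le i
      have a2 := K1.β_le j
      unfold hf
      rw [h1] at a1 ⊢
      have a3 := sf_sq (K1.β j) ω
      have a4 := Real.mul_self_sqrt hN.le
      by_cases c1 : val (K1.β j - 1) ω = j - K1.P (K1.β j)
      · by_cases c2 : i = j
        · subst c2
          simp only [c1, if_true, and_self]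
          linear_combination (sf (K1.β i) ω * sf (K1.β i) ω) * a4 + K1.N (K1.β i) * a3
        · rw [if_neg (show ¬ val (K1.β j - 1) ω = i - K1.P (K1.β j) by omega)]
          simp [c2]
      · simp [c1]
    change ∫ ω, hf i ω * hf j ω ∂μ = _
    simp only [e]
    by_cases c2 : i = j
    · have hlt : j - K1.P (K1.β j) < 2 ^ (K1.β j - 1) := by
        have := K1.lt_β j
        have := K1.β_le j
        rw [K1.P_succ] at *
        change _ < K1.N (K1.β j)
        omega
      obtain ⟨b, hb⟩ := val_surj _ _ hlt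
      simp only [c2, true_and, if_true, ← hb, val_eq_iff]
      rw [integral_const_mul]
      have := integral_indicator_one (μ := μ) (Cyl_meas (K1.β j - 1) b)
      simp only [Set.indicator, Pi.one_apply] at this
      rw [this, Measure.real, h.cyl]
      simp [K1]
    · simp [c2]
  · rw [B_symm, key j i h1, if_neg (by rintro rfl; omega)]

lemma uu_H (n : ℕ) : uu K1 (H h) n = S h n := by
  ext ω
  have hN : (0 : ℝ) < K1.N n := by exact_mod_cast K1.pos _
  have := hf_sum (fun _ => 1) n ω Subset.rfl
  simp only [idx_mem, if_true, one_mul] at this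
  simp only [uu, H, S, mk, SetLike.val_smul, AddSubmonoidClass.coe_finsetSum, Pi.smul_apply,
    Finset.sum_apply, smul_eq_mul, this, Blk.al]
  field_simp

lemma ON_S : ON (S h) := by
  have := (ON_H h).uu (K := K1)
  rwa [funext (uu_H h)] at this

noncomputable def trunc (n : ℕ) (ω : Om) : Om := fun i => if i < n then ω i else false

lemma trunc_meas (n : ℕ) : Measurable (trunc n) := by
  refine measurable_pi_lambda _ fun i => ?_
  simp only [trunc]
  split_ifs
  · exact measurable_pi_apply i
  · exact measurable_const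

noncomputable def FF : Filtration ℕ (inferInstance : MeasurableSpace Om) where
  seq n := MeasurableSpace.comap (trunc n) inferInstance
  mono' := by
    rintro n m hnm _ ⟨t, ht, rfl⟩
    refine ⟨trunc n ⁻¹' t, trunc_meas n ht, ?_⟩
    ext ω
    have : trunc n (trunc m ω) = trunc n ω := by
      ext i
      simp only [trunc]
      split_ifs <;> first | rfl | omega
    simp [this]
  le' n := (trunc_meas n).comap_le

lemma Conv_H : Conv (H h) := by
  have := h.prob
  intro a ha
  set Y : ℕ → Om → ℝ := fun n ω => ∑ j ∈ K1.I n, a j * hf j ω with hY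
  have hY2 : ∀ n ω, Y n ω = a (K1.P n + val (n - 1) ω) * (√(K1.N n) * sf n ω) := by
    intro n ω
    simp only [hY]
    rw [hf_sum a n ω Subset.rfl, if_pos (idx_mem n ω)]
  set M : ℕ → Om → ℝ := fun n ω => ∑ m ∈ range (n + 1), Y m ω with hM
  have hMV : ∀ n, M n = (∑ j ∈ range (K1.P (n + 1)), a j • H h j : V μ).1 := by
    intro n
    ext ω
    simp only [hM, hY, ← K1.sum_blocks]
    simp [H, mk]
  have hM2 : ∀ n, MemLp (M n) 2 μ := fun n => by
    rw [hMV]; exact (∑ j ∈ range (K1.P (n + 1)), a j • H h j : V μ).2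
  have hMi : ∀ n, Integrable (M n) μ := fun n => (hM2 n).integrable (by norm_num)
  have hMm : ∀ n, Measurable (M n) := fun n =>
    measurable_sum _ fun m _ => measurable_sum _ fun j _ => (hf_meas j).const_mul _
  have hmart : Martingale M FF μ := by
    refine martingale_of_setIntegral_eq_succ (fun n => ?_) hMi ?_
    · have : M n = M n ∘ trunc n := by
        ext ω
        refine sum_congr rfl fun m hm => ?_
        have hm := mem_range.1 hm
        have e1 : val (m - 1) (trunc n ω) = val (m - 1) ω :=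
          (val_eq_iff _ _ _).2 fun i hi => by simp only [trunc]; rw [if_pos (by omega)]
        have e2 : sf m (trunc n ω) = sf m ω := by
          unfold sf
          by_cases h0 : m = 0
          · simp [h0]
          · have : trunc n ω (m - 1) = ω (m - 1) := if_pos (show m - 1 < n by omega)
            rw [this]
        rw [hY2, hY2, e1, e2]
      rw [this]
      exact ((hMm n).comp (comap_measurable (trunc n))).stronglyMeasurable
    · rintro n _ ⟨t, ht, rfl⟩
      have e : M (n + 1) = fun ω => M n ω + Y (n + 1) ω := by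
        ext ω; exact sum_range_succ _ _
      have hYi : Integrable (Y (n + 1)) μ := by
        have := (hMi (n + 1)).sub (hMi n)
        rw [e] at this
        exact this.congr (Eventually.of_forall fun ω => by simp)
      rw [e, integral_add (hMi n).integrableOn hYi.integrableOn, left_eq_add,
        ← integral_indicator (trunc_meas n ht)]
      refine h.int_zero {n} fun ω => ?_
      have e1 : trunc n (flip {n} ω) = trunc n ω := by
        ext i
        simp only [trunc, flip]
        split_ifs with h1 h2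
        · simp at h2; omega
        · rfl
        · rfl
      simp only [Set.indicator, Set.mem_preimage, e1]
      split_ifs
      · rw [hY2, hY2, sf_flip, val_flip (by simp; omega)]; simp
      · simp
  have hbd : ∀ n, eLpNorm (M n) 1 μ ≤ Real.toNNReal (1 + ∑' k, a k ^ 2) := by
    intro n
    rw [eLpNorm_one_eq_lintegral_enorm, ← ofReal_integral_norm_eq_lintegral_enorm (hMi n)]
    refine ENNReal.ofReal_le_ofReal ?_
    have h1 : ∫ ω, M n ω * M n ω ∂μ ≤ ∑' k, a k ^ 2 := by
      have := (ON_H h).sq_sum a (range (K1.P (n + 1)))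
      rw [B_apply, ← hMV] at this
      rw [this]
      exact ha.sum_le_tsum _ fun _ _ => sq_nonneg _
    have h2 : Integrable (fun ω => M n ω * M n ω) μ := MemLp.integrable_mul (hM2 n) (hM2 n)
    calc ∫ ω, ‖M n ω‖ ∂μ ≤ ∫ ω, (1 + M n ω * M n ω) ∂μ := by
          refine integral_mono (hMi n).norm ((integrable_const _).add h2) fun ω => ?_
          simp only [Real.norm_eq_abs]
          nlinarith [abs_mul_abs_self (M n ω), sq_nonneg (|M n ω| - 1)]
      _ ≤ _ := by
          rw [integral_add (integrable_const _) h2]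
          simpa using h1
  filter_upwards [hmart.submartingale.exists_ae_tendsto_of_bdd hbd] with ω ⟨l, hl⟩
  have h1 : Tendsto (fun n => ∑ m ∈ range n, Y m ω) atTop (𝓝 l) :=
    (tendsto_add_atTop_iff_nat 1).1 hl
  have h2 : Tendsto (fun n => |Y n ω|) atTop (𝓝 0) := by
    have := (hl.sub h1).abs
    simpa [hM, sum_range_succ] using this
  refine ⟨l, K1.block_conv h1 h2 fun b n hn => ?_⟩
  change |∑ k ∈ Ico (K1.P b) n, a k * hf k ω| ≤ _
  rw [hf_sum a b ω (Ico_subset_Ico_right hn), hY2]
  split_ifs
  · exact le_rfl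
  · rw [abs_zero]; exact abs_nonneg _

lemma Conv_S : Conv (S h) := by
  have := (Conv_H h).uu (K := K1)
  rwa [funext (uu_H h)] at this

noncomputable def ind (n : ℕ) (b : Om) : V μ :=
  mk h ((Cyl n b).indicator 1) (measurable_one.indicator (Cyl_meas n b)) 1 fun ω => by
    simp only [Set.indicator]; split_ifs <;> simp

lemma ker_ind (l : V μ →ₗ[ℝ] ℝ) (hl : ∀ j, l (H h j) = 0) (n : ℕ) (b : Om) :
    l (ind h n b) = 0 := by
  induction n with
  | zero =>
    have : ind h 0 b = uu K1 (H h) 0 := by
      rw [uu_H]; ext ω; simp [ind, S, mk, Cyl, sf]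
    rw [this, ker_uu l hl]
  | succ n ih =>
    have hN : (0 : ℝ) < K1.N (n + 1) := by exact_mod_cast K1.pos _
    have hβ := K1.mem_I.1 (idx_mem (n + 1) b)
    have : ind h (n + 1) b = (1 / 2 : ℝ) • ind h n b
        + (sf (n + 1) b / 2 * K1.al (n + 1)) • H h (K1.P (n + 1) + val n b) := by
      ext ω
      simp only [Nat.add_sub_cancel] at hβ
      simp only [ind, H, mk, Submodule.coe_add, SetLike.val_smul, Pi.add_apply, Pi.smul_apply,
        smul_eq_mul, hf, hβ, Nat.add_sub_cancel, Nat.add_sub_cancel_left, val_eq_iff, Blk.al,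
        Set.indicator, Pi.one_apply]
      have e : ω ∈ Cyl (n + 1) b ↔ ω ∈ Cyl n b ∧ ω n = b n := by
        simp only [Cyl, Set.mem_ofPred_eq, Nat.lt_succ_iff_lt_or_eq]
        exact ⟨fun h => ⟨fun i hi => h i (Or.inl hi), h n (Or.inr rfl)⟩,
          fun h i hi => hi.elim (h.1 i) fun e => e ▸ h.2⟩
      simp only [e]
      by_cases c : ω ∈ Cyl n b
      · simp only [c, true_and, if_true, sf, Nat.add_sub_cancel, Nat.succ_ne_zero, if_false]
        field_simp
        cases ω n <;> cases b n <;> norm_num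
      · simp [c]
    rw [this]
    simp [ih, hl]

end Pool.Agent.H.MP_aa1cf3_an
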