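import Pool.Agent.H.MP_aa1cf3_an.B

set_option linter.unusedSectionVars false
set_option linter.dupNamespace false

namespace Pool.Agent.H.MP_aa1cf3_an

open MeasureTheory Filter Topology Finset
open scoped Classical ENNReal

lemma levy {Ω κ : Type} [MeasurableSpace Ω] [Countable κ] {μ : Measure Ω} (X : ℕ → κ → Ω → ℝ)
    (hX : ∀ m n, Measurable (X m n)) (σ : ℕ → Ω → Ω) (hσ : ∀ m, MeasurePreserving (σ m) μ μ)
    (M : ℕ) (h1 : ∀ m ≤ M, ∀ n ω, 2 * X m n ω = X M n ω + X M n (σ m ω))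
    (h2 : ∀ m, ∀ j ≤ m, ∀ n ω, X j n (σ m ω) = X j n ω) (t : ℝ) :
    μ {ω | ∃ m ≤ M, ∃ n, t < |X m n ω|} ≤ 2 * μ {ω | ∃ n, t < |X M n ω|} := by
  set E : ℕ → Set Ω := fun m => {ω | ∃ n, t < |X m n ω|} with hE
  have hEm : ∀ m, MeasurableSet (E m) := fun m => by
    simp only [hE, Set.ofPred_exists]
    exact MeasurableSet.iUnion fun n => measurableSet_lt measurable_const (hX m n).abs
  set A : ℕ → Set Ω := fun m => {ω | ω ∈ E m ∧ ∀ j < m, ω ∉ E j} with hA
  have hAm : ∀ m, MeasurableSet (A m) := fun m => by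
    have : A m = E m ∩ ⋂ j, ⋂ (_ : j < m), (E j)ᶜ := by ext; simp [hA]
    rw [this]
    exact (hEm m).inter (MeasurableSet.iInter fun j => MeasurableSet.iInter fun _ => (hEm j).compl)
  have hc : {ω | ∃ m ≤ M, ∃ n, t < |X m n ω|} ⊆ ⋃ m ∈ range (M + 1), A m := by
    rintro ω ⟨m, hm, hω⟩
    have ex : ∃ m, ω ∈ E m := ⟨m, hω⟩
    have := Nat.find_min' ex (show ω ∈ E m from hω)
    simp only [Set.mem_iUnion, mem_range]
    exact ⟨Nat.find ex, by omega, Nat.find_spec ex, fun j hj => Nat.find_min ex hj⟩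
  have hk : ∀ m ∈ range (M + 1), μ (A m) ≤ 2 * μ (A m ∩ E M) := by
    intro m hm
    have hm : m ≤ M := by have := mem_range.1 hm; omega
    have hs : A m ⊆ (A m ∩ E M) ∪ σ m ⁻¹' (A m ∩ E M) := by
      intro ω hω
      obtain ⟨n, hn⟩ := hω.1
      by_cases c : t < |X M n ω|
      · exact Or.inl ⟨hω, n, c⟩
      · refine Or.inr ⟨⟨⟨n, by rw [h2 m m le_rfl]; exact hn⟩, fun j hj hj' => ?_⟩, n, ?_⟩
        · obtain ⟨n', hn'⟩ := hj'
          rw [h2 m j hj.le] at hn'
          exact hω.2 j hj ⟨n', hn'⟩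
        · have e := h1 m hm n ω
          have e2 := abs_add_le (X M n ω) (X M n (σ m ω))
          rw [← e, abs_mul, abs_two] at e2
          linarith
    refine (measure_mono hs).trans ((measure_union_le _ _).trans ?_)
    rw [(hσ m).measure_preimage ((hAm m).inter (hEm M)).nullMeasurableSet, two_mul]
  calc _ ≤ ∑ m ∈ range (M + 1), μ (A m) := (measure_mono hc).trans (measure_biUnion_finset_le _ _)
    _ ≤ ∑ m ∈ range (M + 1), 2 * μ (A m ∩ E M) := sum_le_sum hk
    _ = 2 * μ (⋃ m ∈ range (M + 1), A m ∩ E M) := by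
        rw [← mul_sum, measure_biUnion_finset _ fun m _ => (hAm m).inter (hEm M)]
        intro i _ j _ hij
        refine Set.disjoint_left.2 fun ω a b => ?_
        rcases lt_or_gt_of_ne hij with h | h
        · exact b.1.2 i h a.1.1
        · exact a.1.2 j h b.1.1
    _ ≤ _ := by
        gcongr
        exact Set.iUnion₂_subset fun m _ => Set.inter_subset_right

variable {μ : Measure Om} (h : Fair μ)

noncomputable def R (p : ℕ × ℕ) : V μ := S h (2 * Nat.pair p.1 p.2 + 1)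

lemma ON_R : ON (R h) := by
  intro p q
  rw [R, R, ON_S h]
  congr 1
  simp [Prod.ext_iff]

noncomputable def RS (a : ℕ × ℕ → ℝ) (m n : ℕ) (ω : Om) : ℝ :=
  ∑ i ∈ range m, ∑ k ∈ range n, a (i, k) * sf (2 * Nat.pair i k + 1) ω

lemma RS_meas (a : ℕ × ℕ → ℝ) (m n : ℕ) : Measurable (RS a m n) :=
  measurable_sum _ fun _ _ => measurable_sum _ fun _ _ => (sf_meas _).const_mul _

lemma split_sum (x : ℕ → ℝ) {m M : ℕ} (hm : m ≤ M) :
    2 * ∑ i ∈ range m, x i = ∑ i ∈ range M, x i + ∑ i ∈ range M, if m ≤ i then -x i else x i := by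
  induction M, hm using Nat.le_induction with
  | base =>
    rw [two_mul]
    congr 1
    exact sum_congr rfl fun i hi => by rw [if_neg (by have := mem_range.1 hi; omega)]
  | succ M hm ih => rw [sum_range_succ, sum_range_succ, ih, if_pos hm]; ring

include h in
lemma RS_max (a : ℕ × ℕ → ℝ) (ha : Summable fun p => a p ^ 2) {t : ℝ} (ht : 0 < t) :
    μ {ω | ∃ m n, t < |RS a m n ω|} ≤ ENNReal.ofReal (4 * (∑' p, a p ^ 2) / t ^ 2) := by
  have := h.prob
  have key : ∀ M, μ {ω | ∃ m ≤ M, ∃ n : Fin (M + 1), t < |RS a m n ω|}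
      ≤ ENNReal.ofReal (4 * (∑' p, a p ^ 2) / t ^ 2) := by
    intro M
    have f1 : ∀ m n j ω, RS a j n (flip {s | m ≤ (Nat.unpair (s / 2)).1} ω) = ∑ i ∈ range j,
        if m ≤ i then -∑ k ∈ range n, a (i, k) * sf (2 * Nat.pair i k + 1) ω
        else ∑ k ∈ range n, a (i, k) * sf (2 * Nat.pair i k + 1) ω := by
      intro m n j ω
      refine sum_congr rfl fun i _ => ?_
      simp only [sf_flip, Set.mem_ofPred_eq, Nat.mul_div_cancel_left _ two_pos, Nat.unpair_pair]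
      split_ifs <;> simp
    have l1 := levy (μ := μ) (fun m (n : Fin (M + 1)) => RS a m n) (fun m n => RS_meas a m n)
      (fun m => flip {s | m ≤ (Nat.unpair (s / 2)).1}) (fun m => h.flip_mp _) M
      (fun m hm n ω => by rw [f1]; exact split_sum _ hm)
      (fun m j hj n ω => by
        rw [f1]
        exact sum_congr rfl fun i hi => by rw [if_neg (by have := mem_range.1 hi; omega)]) t
    have f2 : ∀ m n ω, RS a M n (flip {s | m ≤ (Nat.unpair (s / 2)).2} ω) = ∑ k ∈ range n,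
        if m ≤ k then -∑ i ∈ range M, a (i, k) * sf (2 * Nat.pair i k + 1) ω
        else ∑ i ∈ range M, a (i, k) * sf (2 * Nat.pair i k + 1) ω := by
      intro m n ω
      rw [RS, sum_comm]
      refine sum_congr rfl fun i _ => ?_
      simp only [sf_flip, Set.mem_ofPred_eq, Nat.mul_div_cancel_left _ two_pos, Nat.unpair_pair]
      split_ifs <;> simp
    have l2 := levy (μ := μ) (fun n (_ : Unit) => RS a M n) (fun n _ => RS_meas a M n)
      (fun m => flip {s | m ≤ (Nat.unpair (s / 2)).2}) (fun m => h.flip_mp _) M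
      (fun m hm n ω => by rw [f2, RS, RS, sum_comm, sum_comm (s := range M)]; exact split_sum _ hm)
      (fun m j hj n ω => by
        rw [f2, RS, sum_comm]
        exact sum_congr rfl fun i hi => by rw [if_neg (by have := mem_range.1 hi; omega)]) t
    have l3 : μ {ω | ∃ n : Fin (M + 1), t < |RS a M n ω|}
        ≤ μ {ω | ∃ n ≤ M, ∃ _ : Unit, t < |RS a M n ω|} :=
      measure_mono fun ω ⟨n, hn⟩ => ⟨n, Nat.lt_succ_iff.1 n.2, (), hn⟩
    have e : RS a M M = (∑ p ∈ range M ×ˢ range M, a p • R h p : V μ).1 := by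
      ext ω
      simp [RS, sum_product, R, S, mk]
    have i2 : MemLp (RS a M M) 2 μ := by
      rw [e]; exact (∑ p ∈ range M ×ˢ range M, a p • R h p : V μ).2
    have i3 : ∫ ω, RS a M M ω * RS a M M ω ∂μ ≤ ∑' p, a p ^ 2 := by
      have := (ON_R h).sq_sum a (range M ×ˢ range M)
      rw [B_apply, ← e] at this
      rw [this]
      exact ha.sum_le_tsum _ fun _ _ => sq_nonneg _
    have i4 := mul_meas_ge_le_integral_of_nonneg (μ := μ)
      (f := fun ω => RS a M M ω * RS a M M ω)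
      (Eventually.of_forall fun ω => mul_self_nonneg _) (MemLp.integrable_mul i2 i2) (t ^ 2)
    have l4 : μ {ω | ∃ _ : Unit, t < |RS a M M ω|}
        ≤ ENNReal.ofReal ((∑' p, a p ^ 2) / t ^ 2) := by
      refine (measure_mono (t := {ω | t ^ 2 ≤ RS a M M ω * RS a M M ω}) ?_).trans ?_
      · rintro ω ⟨-, hω⟩
        simp only [Set.mem_ofPred_eq]
        nlinarith [abs_mul_abs_self (RS a M M ω)]
      · rw [← ofReal_measureReal]
        refine ENNReal.ofReal_le_ofReal ?_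
        rw [le_div_iff₀ (by positivity)]
        linarith
    calc _ ≤ 2 * (2 * ENNReal.ofReal ((∑' p, a p ^ 2) / t ^ 2)) := by
          refine l1.trans ?_
          gcongr
          refine l3.trans (l2.trans ?_)
          gcongr
      _ = _ := by
          rw [mul_div_assoc, ENNReal.ofReal_mul (by norm_num), ← mul_assoc]
          norm_num
  have : {ω | ∃ m n, t < |RS a m n ω|}
      = ⋃ M, {ω | ∃ m ≤ M, ∃ n : Fin (M + 1), t < |RS a m n ω|} := by
    ext ω
    simp only [Set.mem_ofPred_eq, Set.mem_iUnion]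
    exact ⟨fun ⟨m, n, h⟩ => ⟨max m n, m, le_max_left _ _, ⟨n, by omega⟩, h⟩,
      fun ⟨_, m, _, n, h⟩ => ⟨m, n, h⟩⟩
  rw [this, Monotone.measure_iUnion]
  · exact iSup_le key
  · rintro M M' hM ω ⟨m, hm, n, hn⟩
    exact ⟨m, hm.trans hM, ⟨n, by omega⟩, hn⟩

include h in
lemma RS_conv (a : ℕ × ℕ → ℝ) (ha : Summable fun p => a p ^ 2) :
    ∀ᵐ ω ∂μ, ∃ l, Tendsto (fun p : ℕ × ℕ => RS a p.1 p.2 ω) atTop (𝓝 l) := by
  set b : ℕ → ℕ × ℕ → ℝ := fun L p => if p ∈ range L ×ˢ range L then 0 else a p with hb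
  have hbs : ∀ L, Summable fun p => b L p ^ 2 := fun L =>
    ha.of_nonneg_of_le (fun _ => sq_nonneg _) fun p => by
      simp only [hb]; split_ifs <;> simp [sq_nonneg]
  have ht : Tendsto (fun L => ∑' p, b L p ^ 2) atTop (𝓝 0) := by
    have t1 : Tendsto (fun L => range L ×ˢ range L) atTop atTop := by
      refine tendsto_atTop_finset_of_monotone (fun L L' hL => ?_) fun p => ?_
      · exact product_subset_product (range_mono hL) (range_mono hL)
      · exact ⟨max p.1 p.2 + 1, by simp⟩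
    refine ((tendsto_tsum_compl_atTop_zero fun p => a p ^ 2).comp t1).congr fun L => ?_
    simp only [Function.comp]
    refine (tsum_subtype {p | p ∉ range L ×ˢ range L} fun p => a p ^ 2).trans
      (tsum_congr fun p => ?_)
    simp only [hb, Set.indicator, Set.mem_ofPred_eq]
    split_ifs <;> simp
  have key : ∀ j : ℕ, ∀ᵐ ω ∂μ, ∃ L, ∀ m n, |RS (b L) m n ω| ≤ 1 / (j + 1) := by
    intro j
    rw [ae_iff]
    have t2 : Tendsto (fun L => ENNReal.ofReal (4 * (∑' p, b L p ^ 2) / (1 / ((j : ℝ) + 1)) ^ 2))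
        atTop (𝓝 0) := by
      have := ENNReal.tendsto_ofReal ((ht.const_mul 4).div_const ((1 / ((j : ℝ) + 1)) ^ 2))
      simpa using this
    refine le_antisymm (ge_of_tendsto' t2 fun L => ?_) bot_le
    refine le_trans (measure_mono fun ω hω => ?_) (RS_max h (b L) (hbs L) (by positivity))
    simp only [Set.mem_ofPred_eq] at hω ⊢
    push Not at hω
    exact hω L
  filter_upwards [ae_all_iff.2 key] with ω hω
  refine cauchySeq_tendsto_of_complete (Metric.cauchySeq_iff'.2 fun ε hε => ?_)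
  obtain ⟨j, hj⟩ := exists_nat_one_div_lt hε
  obtain ⟨L, hL⟩ := hω j
  refine ⟨(L, L), fun p hp => lt_of_le_of_lt ?_ hj⟩
  refine le_trans (le_of_eq ?_) (hL p.1 p.2)
  rw [Real.dist_eq]
  congr 1
  have hs : range L ×ˢ range L ⊆ range p.1 ×ˢ range p.2 :=
    product_subset_product (range_mono hp.1) (range_mono hp.2)
  simp only [RS, ← sum_product' (f := fun i k => a (i, k) * sf (2 * Nat.pair i k + 1) ω),
    ← sum_product' (f := fun i k => b L (i, k) * sf (2 * Nat.pair i k + 1) ω)]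
  rw [← sum_sdiff hs, ← sum_sdiff hs, add_sub_cancel_right]
  rw [sum_eq_zero (s := range L ×ˢ range L) fun q hq => by simp only [hb, if_pos hq, zero_mul],
    add_zero]
  exact sum_congr rfl fun q hq => by simp only [hb, if_neg (mem_sdiff.1 hq).2]

/-- first swapped system -/
noncomputable def F1 : ℕ → V μ := sw K1 (H h) fun n => S h (2 * n)

noncomputable def K2 : Blk := ⟨fun b => 1 + ∑ j ∈ range (b + 1), (K1.N (K1.β j) + 2) ^ 2,
  fun _ => by positivity⟩

noncomputable def G2 : ℕ → V μ := il (F1 h) (uu K2 fun k => R h (0, k))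

noncomputable def F2 : ℕ → V μ := sw K2 (fun k => R h (0, k)) (G2 h)

noncomputable def Phi (p : ℕ × ℕ) : V μ := if p.1 = 0 then F2 h p.2 else R h p

lemma ON_S2 : ON fun n => S h (2 * n) := fun i j => by rw [ON_S h]; simp

lemma vv_S (k n : ℕ) : B μ (vv K1 (H h) k) (S h n) = 0 := by
  rw [← uu_H, B_vv_uu (ON_H h)]

lemma ON_F1 : ON (F1 h) := (ON_H h).sw (ON_S2 h) fun k _ => vv_S h k _

lemma Conv_F1 : Conv (F1 h) :=
  Conv.sw (ON_H h) (ON_S2 h) (Conv_H h) ((Conv_S h).sub fun i j hij => by simpa using hij)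

lemma R_F1 (p : ℕ × ℕ) (j : ℕ) : B μ (R h p) (F1 h j) = 0 := by
  simp only [F1, sw, map_add, map_smul, R]
  rw [B_symm, vv_S, ON_S h, if_neg (by omega)]
  simp

lemma ON_R0 : ON fun k => R h (0, k) := fun i j => by rw [ON_R h]; simp

lemma Conv_row (i : ℕ) : Conv fun k => R h (i, k) :=
  (Conv_S h).sub (κ := fun k => 2 * Nat.pair i k + 1) fun k l hkl => by
    have := Nat.pair_lt_pair_right i hkl
    simp only; omega

lemma Conv_col (k : ℕ) : Conv fun i => R h (i, k) :=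
  (Conv_S h).sub (κ := fun i => 2 * Nat.pair i k + 1) fun i l hkl => by
    have := Nat.pair_lt_pair_left k hkl
    simp only; omega

lemma ON_G2 : ON (G2 h) :=
  (ON_F1 h).il (ON_R0 h).uu fun i j =>
    ker_uu (B μ (F1 h i)) (fun k => by rw [B_symm, R_F1]) j

lemma ON_F2 : ON (F2 h) := by
  refine (ON_R0 h).sw (ON_G2 h) fun k b => ?_
  obtain ⟨j, rfl | rfl⟩ := Nat.even_or_odd' b
  · rw [G2, il_even, B_symm]
    exact ker_vv (B μ (F1 h j)) (fun k => by rw [B_symm, R_F1]) k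
  · rw [G2, il_odd, B_vv_uu (ON_R0 h)]

lemma Conv_F2 : Conv (F2 h) :=
  Conv.sw (ON_R0 h) (ON_G2 h) (Conv_row h 0) ((Conv_F1 h).il (Conv_row h 0).uu)

lemma R_F2 (p : ℕ × ℕ) (hp : p.1 ≠ 0) (k : ℕ) : B μ (R h p) (F2 h k) = 0 := by
  have h0 : ∀ k, B μ (R h p) (R h (0, k)) = 0 := fun k => by
    rw [ON_R h, if_neg (by rintro rfl; exact hp rfl)]
  have h1 : ∀ b, B μ (R h p) (G2 h b) = 0 := by
    intro b
    obtain ⟨j, rfl | rfl⟩ := Nat.even_or_odd' b
    · rw [G2, il_even, R_F1]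
    · rw [G2, il_odd, ker_uu _ h0]
  simp only [F2, sw, map_add, map_smul, h1, ker_vv _ h0]
  simp

lemma ON_Phi : ON (Phi h) := by
  rintro ⟨i, k⟩ ⟨j, l⟩
  simp only [Phi]
  by_cases hi : i = 0 <;> by_cases hj : j = 0
  · simp [hi, hj, ON_F2 h k l]
  · rw [if_pos hi, if_neg hj, B_symm, R_F2 h _ hj, if_neg (by simp; omega)]
  · rw [if_neg hi, if_pos hj, R_F2 h _ hi, if_neg (by simp; omega)]
  · rw [if_neg hi, if_neg hj, ON_R h]

lemma R_abs (p : ℕ × ℕ) (ω : Om) : |(R h p).1 ω| ≤ 1 :=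
  (sf_abs (2 * Nat.pair p.1 p.2 + 1) ω).le

lemma F1_abs (j : ℕ) (ω : Om) : |(F1 h j).1 ω| ≤ K1.N (K1.β j) + 2 := by
  have h0 : (1 : ℝ) ≤ K1.N (K1.β j) := by exact_mod_cast K1.pos _
  have h1 : K1.al (K1.β j) ≤ 1 := inv_le_one_of_one_le₀ (Real.one_le_sqrt.2 h0)
  have h2 := K1.al_pos (K1.β j)
  have e : (F1 h j).1 ω = hf j ω - K1.al (K1.β j) * sf (K1.β j) ω
      + K1.al (K1.β j) * sf (2 * K1.β j) ω := by
    simp [F1, sw, vv, uu_H, H, S, mk]
  have a1 := abs_le.1 ((hf_abs j ω).trans (Real.sqrt_le_iff.2 ⟨by linarith, by nlinarith⟩ :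
    √(K1.N (K1.β j) : ℝ) ≤ K1.N (K1.β j)))
  have a2 := abs_le.1 (sf_abs (K1.β j) ω).le
  have a3 := abs_le.1 (sf_abs (2 * K1.β j) ω).le
  rw [e, abs_le]
  constructor <;> nlinarith

lemma Phi_abs (p : ℕ × ℕ) (ω : Om) : |(Phi h p).1 ω| ≤ 3 := by
  unfold Phi
  split_ifs
  · refine sw_bound (fun k ω => R_abs h _ ω) (fun b ω => ?_) _ ω
    obtain ⟨j, rfl | rfl⟩ := Nat.even_or_odd' b
    · rw [G2, il_even]
      refine (F1_abs h j ω).trans (Real.le_sqrt_of_sq_le ?_)
      have : (K1.N (K1.β j) + 2) ^ 2 ≤ K2.N (2 * j) := by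
        have := single_le_sum (f := fun j => (K1.N (K1.β j) + 2) ^ 2) (fun _ _ => Nat.zero_le _)
          (mem_range.2 (show j < 2 * j + 1 by omega))
        simp only [K2]; omega
      exact_mod_cast this
    · rw [G2, il_odd]
      refine (uu_bound (fun k ω => R_abs h _ ω) j ω).trans (Real.sqrt_le_sqrt ?_)
      have : K2.N j ≤ K2.N (2 * j + 1) := by
        have := sum_le_sum_of_subset (f := fun j => (K1.N (K1.β j) + 2) ^ 2)
          (range_mono (show j + 1 ≤ 2 * j + 1 + 1 by omega))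
        simp only [K2]; omega
      exact_mod_cast this
  · linarith [R_abs h p ω]

lemma Phi_complete (l : V μ →ₗ[ℝ] ℝ) (hl : ∀ p, l (Phi h p) = 0) (n : ℕ) (b : Om) :
    l (ind h n b) = 0 := by
  have h1 : ∀ k, l (F2 h k) = 0 := fun k => by simpa [Phi] using hl (0, k)
  have h2 := ker_g l h1
  have h3 : ∀ j, l (F1 h j) = 0 := fun j => by simpa [G2, il_even] using h2 (2 * j)
  have h4 : ∀ k, l (R h (0, k)) = 0 :=
    ker_e l h1 fun j => by simpa [G2, il_odd] using h2 (2 * j + 1)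
  have h5 : ∀ p, l (R h p) = 0 := by
    rintro ⟨i, k⟩
    by_cases hi : i = 0
    · rw [hi, h4]
    · simpa [Phi, hi] using hl (i, k)
  have h6 : ∀ n, l (S h n) = 0 := by
    intro n
    obtain ⟨j, rfl | rfl⟩ := Nat.even_or_odd' n
    · exact ker_g l h3 j
    · simpa [R] using h5 (Nat.unpair j)
  exact ker_ind h l (ker_e l h3 fun n => by rw [uu_H, h6]) n b

lemma Phi_conv (a : ℕ × ℕ → ℝ) (ha : Summable fun p => a p ^ 2) :
    ∀ᵐ ω ∂μ, (∃ l, Tendsto (fun p : ℕ × ℕ => ∑ i ∈ range p.1, ∑ k ∈ range p.2,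
        a (i, k) * (Phi h (i, k)).1 ω) atTop (𝓝 l)) ∧
      (∀ i, ∃ l, Tendsto (fun n => ∑ k ∈ range n, a (i, k) * (Phi h (i, k)).1 ω) atTop (𝓝 l)) ∧
      ∀ k, ∃ l, Tendsto (fun m => ∑ i ∈ range m, a (i, k) * (Phi h (i, k)).1 ω) atTop (𝓝 l) := by
  have r : ∀ i, Summable fun k => a (i, k) ^ 2 := fun i =>
    ha.comp_injective (i := fun k => (i, k)) fun _ _ h => by simpa using h
  have c : ∀ k, Summable fun i => a (i, k) ^ 2 := fun k =>
    ha.comp_injective (i := fun i => (i, k)) fun _ _ h => by simpa using h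
  have hb : Summable fun p : ℕ × ℕ => (if p.1 = 0 then 0 else a p) ^ 2 :=
    ha.of_nonneg_of_le (fun _ => sq_nonneg _) fun p => by split_ifs <;> simp [sq_nonneg]
  filter_upwards [RS_conv h _ hb, Conv_F2 h _ (r 0),
    ae_all_iff.2 fun i => Conv_row h i _ (r i), ae_all_iff.2 fun k => Conv_col h k _ (c k)]
    with ω ⟨l1, h1⟩ ⟨l2, h2⟩ h3 h4
  refine ⟨⟨l1 + l2, ?_⟩, fun i => ?_, fun k => ?_⟩
  · have t : Tendsto (fun p : ℕ × ℕ => p.2) atTop atTop := by
      rw [← prod_atTop_atTop_eq]; exact tendsto_snd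
    refine (h1.add (h2.comp t)).congr' ?_
    filter_upwards [eventually_ge_atTop (1, 0)] with p hp
    obtain ⟨m, hm⟩ : ∃ m, p.1 = m + 1 := ⟨p.1 - 1, by have := hp.1; simp at this; omega⟩
    simp only [RS, Function.comp, hm, sum_range_succ', Phi]
    simp [R, S, mk]
  · by_cases hi : i = 0
    · exact ⟨l2, by simpa [Phi, hi] using h2⟩
    · simpa [Phi, hi] using h3 i
  · obtain ⟨l, hl⟩ := h4 k
    refine ⟨l + (a (0, k) * (F2 h k).1 ω - a (0, k) * (R h (0, k)).1 ω), ?_⟩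
    refine (hl.add_const _).congr' ?_
    filter_upwards [eventually_ge_atTop 1] with m hm
    obtain ⟨m, rfl⟩ : ∃ m', m = m' + 1 := ⟨m - 1, by omega⟩
    simp only [sum_range_succ', Phi]
    simp

end Pool.Agent.H.MP_aa1cf3_an
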